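import Pool.Agent.H97.RK.Targets

/-!
Random formulas and resolution at the scale of SETH (MP_c62aed_lc): row PX2.
-/

set_option autoImplicit false

open Finset Pool.Agent.H97.RK

namespace Pool.Agent.H66.RKS

/-- the clauses in `T ∪ W` which are false on `T` -/
theorem card_lit {n : ℕ} (y : Fin n → Bool) (T W : Finset (Fin n)) :
    (univ.filter fun l : Fin n × Bool => l.1 ∈ T ∪ W ∧ (l.1 ∈ T → y l.1 ≠ l.2)).card ≤
      T.card + 2 * W.card := by
  classical
  have hsub : (univ.filter fun l : Fin n × Bool => l.1 ∈ T ∪ W ∧ (l.1 ∈ T → y l.1 ≠ l.2)) ⊆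
      (T.image fun u => (u, !y u)) ∪ W ×ˢ (univ : Finset Bool) := by
    rintro ⟨u, b⟩ hl
    simp only [mem_filter, mem_univ, true_and, mem_union] at hl
    obtain ⟨h1, h2⟩ := hl
    rw [mem_union]
    by_cases hT : u ∈ T
    · left
      rw [mem_image]
      refine ⟨u, hT, ?_⟩
      have := h2 hT
      ext
      · rfl
      · revert this
        cases y u <;> cases b <;> simp
    · right
      rw [mem_product]
      exact ⟨h1.resolve_left hT, mem_univ _⟩
  refine (card_le_card hsub).trans ((card_union_le _ _).trans ?_)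
  have h1 : (T.image fun u => (u, !y u)).card ≤ T.card := card_image_le
  have h2 : (W ×ˢ (univ : Finset Bool)).card = 2 * W.card := by
    rw [card_product, card_univ, Fintype.card_bool, mul_comm]
  omega

theorem card_cl {n k : ℕ} (y : Fin n → Bool) (T W : Finset (Fin n)) :
    (univ.filter fun h : Fin k → Fin n × Bool => (∀ i, (h i).1 ∈ T ∪ W) ∧
      ∀ i, (h i).1 ∈ T → y (h i).1 ≠ (h i).2).card ≤ (T.card + 2 * W.card) ^ k := by
  classical
  have h1 : (univ.filter fun h : Fin k → Fin n × Bool => (∀ i, (h i).1 ∈ T ∪ W) ∧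
      ∀ i, (h i).1 ∈ T → y (h i).1 ≠ (h i).2) =
      Fintype.piFinset fun _ : Fin k =>
        (univ.filter fun l : Fin n × Bool => l.1 ∈ T ∪ W ∧ (l.1 ∈ T → y l.1 ≠ l.2)) := by
    ext h
    rw [mem_filter, Fintype.mem_piFinset]
    constructor
    · rintro ⟨-, h1, h2⟩ i
      rw [mem_filter]
      exact ⟨mem_univ _, h1 i, h2 i⟩
    · intro h1
      refine ⟨mem_univ _, fun i => ?_, fun i => ?_⟩
      · exact ((mem_filter.1 (h1 i)).2).1
      · exact ((mem_filter.1 (h1 i)).2).2
  rw [h1, Fintype.card_piFinset, prod_const, card_univ, Fintype.card_fin]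
  exact Nat.pow_le_pow_left (card_lit y T W) k

theorem pf_PX2 (hPBN : T_PBN) : T_PX2 := by
  classical
  intro n k m t d e hn hed hdn
  set N : ℝ := (2 * n) ^ k with hN
  have hn0 : (0 : ℝ) < n := by exact_mod_cast hn
  have hNpos : 0 < N := by positivity
  have hde : (0 : ℝ) ≤ (n : ℝ) - d + e := by
    have : (d : ℝ) ≤ n := by exact_mod_cast hdn
    have : (0 : ℝ) ≤ e := by positivity
    linarith
  let T : (Fin n → Fin 3) → Finset (Fin n) := fun g => univ.filter fun u => g u = 1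
  let W : (Fin n → Fin 3) → Finset (Fin n) := fun g => univ.filter fun u => g u = 2
  obtain ⟨P, hP⟩ : ∃ P : (Fin n → Bool) × (Fin n → Fin 3) → (Fin k → Fin n × Bool) → Prop,
      ∀ a h, P a h ↔
        (∀ i, (h i).1 ∈ T a.2 ∪ W a.2) ∧ ∀ i, (h i).1 ∈ T a.2 → a.1 (h i).1 ≠ (h i).2 :=
    ⟨fun a h => (∀ i, (h i).1 ∈ T a.2 ∪ W a.2) ∧ ∀ i, (h i).1 ∈ T a.2 → a.1 (h i).1 ≠ (h i).2,
      fun _ _ => Iff.rfl⟩
  let I : Finset ((Fin n → Bool) × (Fin n → Fin 3)) :=
    univ.filter fun a => (W a.2).card ≤ e ∧ (T a.2).card + (W a.2).card + d ≤ n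
  let S : (Fin n → Bool) × (Fin n → Fin 3) → Finset (Fml n k m) := fun a =>
    univ.filter fun F => t ≤ (univ.filter fun c => P a (F c)).card
  have hsub : (univ.filter fun F : Fml n k m => ¬ X2 F t d e) ⊆ I.biUnion S := by
    intro F hF
    rw [mem_filter] at hF
    have hX := hF.2
    unfold X2 at hX
    push Not at hX
    obtain ⟨y, T0, W0, hdis, hWe, hTW, ht⟩ := hX
    let g : Fin n → Fin 3 := fun u => if u ∈ T0 then 1 else if u ∈ W0 then 2 else 0
    have hT : T g = T0 := by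
      ext u
      simp only [T, g, mem_filter, mem_univ, true_and]
      by_cases h1 : u ∈ T0
      · simp [h1]
      · by_cases h2 : u ∈ W0 <;> simp [h1, h2]
    have hW : W g = W0 := by
      ext u
      simp only [W, g, mem_filter, mem_univ, true_and]
      by_cases h1 : u ∈ T0
      · have h2 : u ∉ W0 := fun h2 => (disjoint_left.1 hdis h1) h2
        simp [h1, h2]
      · by_cases h2 : u ∈ W0 <;> simp [h1, h2]
    rw [mem_biUnion]
    refine ⟨(y, g), ?_, ?_⟩
    · rw [mem_filter]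
      refine ⟨mem_univ _, ?_, ?_⟩
      · rw [hW]; exact hWe
      · rw [hW, hT]; exact hTW
    · rw [mem_filter]
      refine ⟨mem_univ _, ht.trans (card_le_card ?_)⟩
      intro c hc
      rw [mem_filter] at hc ⊢
      refine ⟨mem_univ _, (hP _ _).2 ⟨?_, ?_⟩⟩
      · change ∀ i, (F c i).1 ∈ T g ∪ W g
        rw [hT, hW]
        exact hc.2.1
      · change ∀ i, (F c i).1 ∈ T g → y (F c i).1 ≠ (F c i).2
        rw [hT]
        exact hc.2.2
  have hb : ∀ a ∈ I, ((S a).card : ℝ) ≤
      m.choose t * (((n : ℝ) - d + e) / (2 * n)) ^ (k * t) * N ^ m := by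
    intro a ha
    have ha' := (mem_filter.1 ha).2
    have h1 : ((S a).card : ℝ) * N ^ t ≤ m.choose t * ((univ.filter (P a)).card : ℝ) ^ t * N ^ m :=
      hPBN n k m t (P a)
    have h2 : ((univ.filter (P a)).card : ℝ) ≤ ((n : ℝ) - d + e) ^ k := by
      have h3 : (univ.filter (P a)).card ≤ ((T a.2).card + 2 * (W a.2).card) ^ k := by
        refine (card_le_card ?_).trans (card_cl a.1 (T a.2) (W a.2))
        intro h hh
        rw [mem_filter] at hh ⊢
        exact ⟨mem_univ _, (hP _ _).1 hh.2⟩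
      have h4 : (((T a.2).card + 2 * (W a.2).card : ℕ) : ℝ) ≤ (n : ℝ) - d + e := by
        have h5 : (T a.2).card + 2 * (W a.2).card + d ≤ n + e := by omega
        have h6 : (((T a.2).card + 2 * (W a.2).card + d : ℕ) : ℝ) ≤ ((n + e : ℕ) : ℝ) := by
          exact_mod_cast h5
        rw [Nat.cast_add _ d, Nat.cast_add n e] at h6
        linarith
      calc ((univ.filter (P a)).card : ℝ)
          ≤ ((((T a.2).card + 2 * (W a.2).card) ^ k : ℕ) : ℝ) := by exact_mod_cast h3
        _ = (((T a.2).card + 2 * (W a.2).card : ℕ) : ℝ) ^ k := by push_cast; ring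
        _ ≤ ((n : ℝ) - d + e) ^ k := pow_le_pow_left₀ (Nat.cast_nonneg _) h4 k
    have h3 : (((n : ℝ) - d + e) / (2 * n)) ^ (k * t) * N ^ t = (((n : ℝ) - d + e) ^ k) ^ t := by
      rw [hN, div_pow, pow_mul, pow_mul, div_mul_cancel₀]
      positivity
    have h4 : ((S a).card : ℝ) * N ^ t ≤
        (m.choose t * (((n : ℝ) - d + e) / (2 * n)) ^ (k * t) * N ^ m) * N ^ t := by
      calc ((S a).card : ℝ) * N ^ t
          ≤ m.choose t * ((univ.filter (P a)).card : ℝ) ^ t * N ^ m := h1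
        _ ≤ m.choose t * (((n : ℝ) - d + e) ^ k) ^ t * N ^ m := by
            gcongr
        _ = (m.choose t * (((n : ℝ) - d + e) / (2 * n)) ^ (k * t) * N ^ m) * N ^ t := by
            rw [← h3]; ring
    exact le_of_mul_le_mul_right h4 (by positivity)
  have hI : (I.card : ℝ) ≤ 6 ^ n := by
    have h1 : I.card ≤ Fintype.card ((Fin n → Bool) × (Fin n → Fin 3)) := card_le_univ _
    rw [Fintype.card_prod, Fintype.card_fun, Fintype.card_fun, Fintype.card_bool,
      Fintype.card_fin, Fintype.card_fin, ← mul_pow] at h1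
    exact_mod_cast h1
  calc ((univ.filter fun F : Fml n k m => ¬ X2 F t d e).card : ℝ)
      ≤ ((I.biUnion S).card : ℝ) := by exact_mod_cast card_le_card hsub
    _ ≤ ((∑ a ∈ I, (S a).card : ℕ) : ℝ) := by exact_mod_cast card_biUnion_le
    _ = ∑ a ∈ I, ((S a).card : ℝ) := by push_cast; rfl
    _ ≤ ∑ _a ∈ I, m.choose t * (((n : ℝ) - d + e) / (2 * n)) ^ (k * t) * N ^ m := sum_le_sum hb
    _ = I.card * (m.choose t * (((n : ℝ) - d + e) / (2 * n)) ^ (k * t) * N ^ m) := by
        rw [sum_const, nsmul_eq_mul]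
    _ ≤ 6 ^ n * (m.choose t * (((n : ℝ) - d + e) / (2 * n)) ^ (k * t) * N ^ m) := by
        gcongr
    _ = 6 ^ n * m.choose t * (((n : ℝ) - d + e) / (2 * n)) ^ (k * t) * N ^ m := by ring

end Pool.Agent.H66.RKS
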